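import Mathlib
import Pool.Agent.Lib.MP_7fabd3_an.Final

set_option autoImplicit false

namespace Pool.Agent.Results.MP_7fabd3_an.NoDoubledSzegoBound

open MeasureTheory Pool.Agent.Lib.MP_7fabd3_an
open scoped ENNReal

/-- The doubled Szego-type lower bound `[W_n²(μ)]² ≥ 2 S(μ)` fails for reflectionless measures on
finite gap sets. The proof takes `K = [-11, -2] ∪ [13, 14]`, `γ = 64/5` and `n = 1`, for which
`[W_1²(μ)]² = 1.1028...` and `2 S(μ) = 1.1588...`. -/
theorem result :
    ∃ (l : ℕ) (α β : Fin (l + 1) → ℝ) (γ : Fin l → ℝ) (μK : Measure ℝ) (n : ℕ),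
      (∀ j, α j < β j) ∧ (∀ j : Fin l, β j.castSucc < α j.succ) ∧
      (∀ j : Fin l, γ j ∈ Set.Icc (β j.castSucc) (α j.succ)) ∧
      IsEquilibrium (gapSet α β) μK ∧
      IsProbabilityMeasure (reflMeasure α β γ) ∧
      Integrable (logDensity μK (reflMeasure α β γ)) μK ∧
      1 ≤ n ∧
      widom (gapSet α β) (reflMeasure α β γ) n ^ 2 <
        ENNReal.ofReal (2 * Real.exp (∫ x, logDensity μK (reflMeasure α β γ) x ∂μK)) := by
  refine ⟨1, ![-11, 13], ![-2, 14], ![64 / 5], mu7, 1, ?_, ?_, ?_, ?_, ?_, ?_, le_rfl, ?_⟩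
  · intro j; fin_cases j <;> norm_num
  · intro j; fin_cases j; norm_num
  · intro j; fin_cases j; constructor <;> norm_num
  · rw [gapSet_eq]; exact isEquilibrium_mu7
  · rw [reflMeasure_eq]; exact muG_prob (by norm_num) (by norm_num)
  · rw [reflMeasure_eq]; exact log_ratio.1
  · rw [reflMeasure_eq, gapSet_eq]
    obtain ⟨u, Z, hu, hZ1, hZ, hval⟩ := log_ratio.2
    refine lt_of_le_of_lt widom_sq_le ?_
    rw [hval, ENNReal.div_lt_iff (Or.inl (by
      rw [Ne, ENNReal.ofReal_eq_zero, not_le]; positivity)) (Or.inl ENNReal.ofReal_ne_top),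
      ← ENNReal.ofReal_mul (by positivity)]
    apply (ENNReal.ofReal_lt_ofReal_iff (by positivity)).2
    have := final_numeric hu hZ1 hZ
    linarith

end Pool.Agent.Results.MP_7fabd3_an.NoDoubledSzegoBound
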